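import Mathlib

set_option autoImplicit false

namespace Pool.Agent.Results.MP_ce2a64_co.NotInherited
open SimpleGraph

/-- `G` has a radio labeling whose image is `{0, …, |V| - 1}` -/
def RadioGraceful {V : Type} [Fintype V] (G : SimpleGraph V) : Prop :=
  ∃ f : V → ℕ, (∀ u v, u ≠ v → (G.diam : ℤ) + 1 - G.dist u v ≤ |(f u : ℤ) - f v|) ∧
    Set.range f = {i | i < Fintype.card V}

theorem dist_eq {V : Type} [Fintype V] [Nonempty V] (G : SimpleGraph V) (D : V → V → ℕ) (d : ℕ)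
    (h0 : ∀ u, D u u = 0) (h1 : ∀ u v, G.Adj u v → ∀ w, D u w ≤ D v w + 1)
    (h2 : ∀ u v, u ≠ v → ∃ w, G.Adj u w ∧ D w v < D u v) (h3 : ∀ u v, D u v ≤ d)
    (h4 : ∃ u v, D u v = d) : G.Connected ∧ (∀ u v, G.dist u v = D u v) ∧ G.diam = d := by
  have up : ∀ n u v, D u v = n → ∃ p : G.Walk u v, p.length ≤ n := by
    intro n
    induction n using Nat.strong_induction_on with
    | _ n ih =>
      intro u v h
      by_cases e : u = v
      · subst e; exact ⟨.nil, by simp⟩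
      · obtain ⟨w, a, b⟩ := h2 u v e
        obtain ⟨p, hp⟩ := ih _ (h ▸ b) w v rfl
        exact ⟨.cons a p, by simp; omega⟩
  have lo : ∀ u v (p : G.Walk u v), D u v ≤ p.length := by
    intro u v p
    induction p with
    | nil => simp [h0]
    | cons h p ih => exact (h1 _ _ h _).trans (by simpa using ih)
  have hc : G.Connected := ⟨fun u v => ⟨(up _ u v rfl).choose⟩⟩
  have hd : ∀ u v, G.dist u v = D u v := by
    intro u v
    obtain ⟨p, hp⟩ := up _ u v rfl
    obtain ⟨q, hq⟩ := hc.exists_walk_length_eq_dist u v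
    exact le_antisymm ((dist_le p).trans hp) (hq ▸ lo u v q)
  refine ⟨hc, hd, le_antisymm ?_ ?_⟩
  · obtain ⟨u, v, h⟩ := G.exists_dist_eq_diam
    rw [← h, hd]; exact h3 u v
  · obtain ⟨u, v, h⟩ := h4
    rw [← h, ← hd]; exact dist_le_diam (connected_iff_ediam_ne_top.1 hc)

def ed : List (ℕ × ℕ) := [(1, 2), (2, 3), (1, 3), (4, 5), (5, 6), (4, 6), (7, 8), (8, 9), (7, 9),
  (0, 3), (0, 4), (0, 6), (0, 7), (0, 9)]

def cadj (u v : Fin 10) : Bool := (u.1, v.1) ∈ ed || (v.1, u.1) ∈ ed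

def G : SimpleGraph (Fin 10) where
  Adj u v := u ≠ v ∧ cadj u v = false
  symm := ⟨by decide⟩
  loopless := ⟨fun _ h => h.1 rfl⟩

instance : DecidableRel G.Adj := fun u v => inferInstanceAs (Decidable (u ≠ v ∧ cadj u v = false))

instance : DecidableRel (G □ (⊤ : SimpleGraph (Fin 3))).Adj := fun _ _ =>
  decidable_of_iff _ boxProd_adj.symm

def DG (u v : Fin 10) : ℕ := if u = v then 0 else if cadj u v then 2 else 1

def DP (u v : Fin 10 × Fin 3) : ℕ := DG u.1 v.1 + if u.2 = v.2 then 0 else 1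

def lab (u : Fin 10 × Fin 3) : ℕ :=
  [19, 9, 29, 0, 3, 6, 7, 1, 4, 2, 5, 8, 10, 13, 16, 14, 17, 11, 12, 15, 18, 26, 20, 23, 24, 27,
    21, 28, 22, 25].getD (3 * u.1.1 + u.2.1) 0

theorem hG : G.Connected ∧ (∀ u v, G.dist u v = DG u v) ∧ G.diam = 2 :=
  dist_eq G DG 2 (by decide +kernel) (by decide +kernel) (by decide +kernel) (by decide +kernel)
    (by decide +kernel)

theorem hP : (G □ (⊤ : SimpleGraph (Fin 3))).Connected ∧
    (∀ u v, (G □ (⊤ : SimpleGraph (Fin 3))).dist u v = DP u v) ∧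
    (G □ (⊤ : SimpleGraph (Fin 3))).diam = 3 :=
  dist_eq _ DP 3 (by decide +kernel) (by decide +kernel) (by decide +kernel) (by decide +kernel)
    (by decide +kernel)

set_option synthInstance.maxSize 4096 in
theorem noham : ∀ x0 x1 : Fin 10, cadj x0 x1 = true → ∀ x2 : Fin 10, cadj x1 x2 = true → x2 ∉ [x0] →
    ∀ x3 : Fin 10, cadj x2 x3 = true → x3 ∉ [x0, x1] →
    ∀ x4 : Fin 10, cadj x3 x4 = true → x4 ∉ [x0, x1, x2] →
    ∀ x5 : Fin 10, cadj x4 x5 = true → x5 ∉ [x0, x1, x2, x3] →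
    ∀ x6 : Fin 10, cadj x5 x6 = true → x6 ∉ [x0, x1, x2, x3, x4] →
    ∀ x7 : Fin 10, cadj x6 x7 = true → x7 ∉ [x0, x1, x2, x3, x4, x5] →
    ∀ x8 : Fin 10, cadj x7 x8 = true → x8 ∉ [x0, x1, x2, x3, x4, x5, x6] →
    ∀ x9 : Fin 10, cadj x8 x9 = true → x9 ∉ [x0, x1, x2, x3, x4, x5, x6, x7] →
    False := by
  decide +kernel

theorem result : ∃ (V W : Type) (_ : Fintype V) (_ : Fintype W) (G : SimpleGraph V)
    (H : SimpleGraph W), G.Connected ∧ H.Connected ∧ RadioGraceful (G □ H) ∧ ¬ RadioGraceful G := by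
  refine ⟨_, _, inferInstance, inferInstance, G, (⊤ : SimpleGraph (Fin 3)), hG.1, connected_top,
    ⟨lab, ?_, ?_⟩, ?_⟩
  · simp only [hP.2.1, hP.2.2]
    decide +kernel
  · ext i
    have h1 : ∀ u, lab u < 30 := by decide +kernel
    have h2 : ∀ i < 30, ∃ u, lab u = i := by decide +kernel
    exact ⟨by rintro ⟨u, rfl⟩; simpa using h1 u, fun h => h2 i (by simpa using h)⟩
  · rintro ⟨f, h1, h2⟩
    have h3 : ∀ i : Fin 10, ∃ u, f u = i := fun i => by
      have : i.1 ∈ Set.range f := by rw [h2]; simp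
      exact this
    choose g hg' using h3
    have hg : Function.Injective g := fun a b h => Fin.ext (by rw [← hg', ← hg', h])
    have hc : ∀ a b : Fin 10, b.1 = a.1 + 1 → cadj (g a) (g b) = true := by
      intro a b h
      have hne : g a ≠ g b := fun e => by rw [hg e] at h; omega
      have := h1 _ _ hne
      rw [hG.2.1, hG.2.2, hg', hg', h, DG, if_neg hne] at this
      by_contra hn
      rw [if_neg hn] at this
      simp at this
    exact noham (g 0) (g 1) (hc 0 1 rfl) (g 2) (hc 1 2 rfl) (by simp [hg.eq_iff])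
      (g 3) (hc 2 3 rfl) (by simp [hg.eq_iff])
      (g 4) (hc 3 4 rfl) (by simp [hg.eq_iff])
      (g 5) (hc 4 5 rfl) (by simp [hg.eq_iff])
      (g 6) (hc 5 6 rfl) (by simp [hg.eq_iff])
      (g 7) (hc 6 7 rfl) (by simp [hg.eq_iff])
      (g 8) (hc 7 8 rfl) (by simp [hg.eq_iff])
      (g 9) (hc 8 9 rfl) (by simp [hg.eq_iff])
     

end Pool.Agent.Results.MP_ce2a64_co.NotInherited
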